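import Pool.Agent.W623.SecC.Defs

/-!
# Part A6: the norm of a generator of the `N`-th power of the ideal of a point

(helper235, for project SC of helper623.)
-/

open Polynomial

namespace Pool.Agent.W235.SecC

open Pool.Agent.W623.SecC WeierstrassCurve.Affine WeierstrassCurve.Affine.CoordinateRing

universe u

variable {K : Type u} [Field K]

section

variable (W : WeierstrassCurve.Affine K)

lemma poly_neg (h1 : W.a₁ = 0) (h3 : W.a₃ = 0) :
    W.polynomial.eval₂ (algebraMap K[X] W.CoordinateRing) (-(mk W X)) = 0 := by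
  have hmk : ∀ p : K[X][X], mk W p = p.eval₂ (algebraMap K[X] W.CoordinateRing) (mk W X) := by
    intro p
    have := AdjoinRoot.eval₂_root (W.polynomial)
    induction p using Polynomial.induction_on' with
    | add p q hp hq => rw [map_add, hp, hq, eval₂_add]
    | monomial n a =>
      rw [eval₂_monomial, ← C_mul_X_pow_eq_monomial, map_mul, map_pow]
      rfl
  have h0 : W.polynomial.eval₂ (algebraMap K[X] W.CoordinateRing) (mk W X) = 0 := by
    rw [← hmk]; exact AdjoinRoot.mk_self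
  have hp : W.polynomial = X ^ 2 - C (X ^ 3 + C W.a₂ * X ^ 2 + C W.a₄ * X + C W.a₆) := by
    rw [WeierstrassCurve.Affine.polynomial, h1, h3]
    simp
  have key : ∀ z : W.CoordinateRing, W.polynomial.eval₂ (algebraMap K[X] W.CoordinateRing) z =
      z ^ 2 - algebraMap K[X] W.CoordinateRing
        (X ^ 3 + C W.a₂ * X ^ 2 + C W.a₄ * X + C W.a₆) := by
    intro z
    have h := congrArg (fun P : K[X][X] => P.eval₂ (algebraMap K[X] W.CoordinateRing) z) hp
    simp only [eval₂_sub, eval₂_pow, eval₂_X, eval₂_C] at h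
    exact h
  rw [key] at h0 ⊢
  rw [neg_sq]
  exact h0

/-- the automorphism `Y ↦ -Y` of the coordinate ring -/
noncomputable def cj (h1 : W.a₁ = 0) (h3 : W.a₃ = 0) : W.CoordinateRing →+* W.CoordinateRing :=
  AdjoinRoot.lift (algebraMap K[X] W.CoordinateRing) (-(mk W X)) (poly_neg W h1 h3)

lemma cj_mk (h1 : W.a₁ = 0) (h3 : W.a₃ = 0) (p : K[X][X]) :
    cj W h1 h3 (mk W p) = p.eval₂ (algebraMap K[X] W.CoordinateRing) (-(mk W X)) :=
  AdjoinRoot.lift_mk _ _

lemma cj_C (h1 : W.a₁ = 0) (h3 : W.a₃ = 0) (p : K[X]) :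
    cj W h1 h3 (mk W (C p)) = mk W (C p) := by
  rw [cj_mk, eval₂_C]; rfl

lemma cj_X (h1 : W.a₁ = 0) (h3 : W.a₃ = 0) :
    cj W h1 h3 (mk W X) = -(mk W X) := by
  rw [cj_mk, eval₂_X]

lemma mul_cj (h1 : W.a₁ = 0) (h3 : W.a₃ = 0) (f : W.CoordinateRing) :
    f * cj W h1 h3 f = mk W (C (Algebra.norm K[X] f)) := by
  obtain ⟨p, q, rfl⟩ := exists_smul_basis_eq f
  have h2 := coe_norm_smul_basis (W' := W) p q
  have h4 : mk W (C (Algebra.norm K[X] (p • (1 : W.CoordinateRing) + q • mk W X))) =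
      mk W ((C p + C q * X) * (C p + C q * (-(X : K[X][X]) - C (C W.a₁ * X + C W.a₃)))) := h2
  rw [h4, h1, h3]
  simp only [CoordinateRing.smul, map_add, map_mul, cj_C, cj_X, mul_one, map_neg,
    map_zero, zero_mul, add_zero, sub_zero]

lemma map_XYIdeal (h1 : W.a₁ = 0) (h3 : W.a₃ = 0) (x y : K) :
    (XYIdeal W x (C y)).map (cj W h1 h3) = XYIdeal W x (C (W.negY x y)) := by
  have hn : W.negY x y = -y := by rw [negY, h1, h3]; ring
  rw [XYIdeal, XYIdeal, Ideal.map_span, Set.image_pair, hn]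
  have e1 : cj W h1 h3 (XClass W x) = XClass W x := cj_C W h1 h3 _
  have e2 : cj W h1 h3 (YClass W (C y)) = -YClass W (C (-y)) := by
    rw [YClass, YClass, map_sub, map_sub, cj_X, cj_C, map_sub]
    simp only [map_neg]
    ring
  rw [e1, e2, Ideal.span_insert, Ideal.span_insert, Ideal.span_singleton_neg]

end

lemma pow_dvd_pow_iff_of_two {a b : K[X]} (_ : a ≠ 0) (h : a ^ 2 ∣ b ^ 2) : a ∣ b :=
  (UniqueFactorizationMonoid.pow_dvd_pow_iff_dvd two_ne_zero).1 h

/-- **Part A6** -/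
theorem partA6 : PartA6.{u} := by
  intro K _ e W hW N x y hxy f hf
  have h1 : W.a₁ = 0 := by rw [hW]; rfl
  have h3 : W.a₃ = 0 := by rw [hW]; rfl
  -- the ideal generated by the norm
  have hmap : Ideal.span {cj W h1 h3 f} = XYIdeal W x (C (W.negY x y)) ^ N := by
    rw [← map_XYIdeal W h1 h3, ← Ideal.map_pow, hf, Ideal.map_span, Set.image_singleton]
  have hid : Ideal.span {mk W (C (Algebra.norm K[X] f))} =
      Ideal.span {mk W (C ((X - C x) ^ N))} := by
    rw [← mul_cj W h1 h3, ← Ideal.span_singleton_mul_span_singleton, hmap, ← hf, ← mul_pow,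
      mul_comm (XYIdeal W x (C y)), XYIdeal_neg_mul hxy, XIdeal, Ideal.span_singleton_pow, XClass,
      ← map_pow, ← C_pow]
  obtain ⟨v, hv⟩ := Ideal.span_singleton_eq_span_singleton.1 hid
  -- take norms
  have hnm : ∀ p : K[X], Algebra.norm K[X] (mk W (C p)) = p ^ 2 := by
    intro p
    have := Algebra.norm_algebraMap_of_basis (CoordinateRing.basis W) p
    rw [Fintype.card_fin] at this
    exact this
  have hN := congrArg (Algebra.norm K[X]) hv
  rw [map_mul, hnm, hnm] at hN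
  have hvu : IsUnit (Algebra.norm K[X] (v : W.CoordinateRing)) := v.isUnit.map _
  obtain ⟨c0, hc0, hc0v⟩ := Polynomial.isUnit_iff.1 hvu
  have hB : ((X - C x : K[X]) ^ N) ≠ 0 := pow_ne_zero _ (X_sub_C_ne_zero x)
  rw [← hc0v] at hN
  have hc00 : c0 ≠ 0 := hc0.ne_zero
  -- A ∣ B and B ∣ A
  have hdvd : ((X - C x : K[X]) ^ N) ^ 2 ∣ (Algebra.norm K[X] f) ^ 2 := by
    rw [← hN]
    have : (Algebra.norm K[X] f) ^ 2 = ((Algebra.norm K[X] f) ^ 2 * C c0) * C c0⁻¹ := by
      rw [mul_assoc, ← C_mul, mul_inv_cancel₀ hc00, C_1, mul_one]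
    conv_rhs => rw [this]
    exact dvd_mul_right _ _
  have hd2 : ((X - C x : K[X]) ^ N) ∣ Algebra.norm K[X] f :=
    (pow_dvd_pow_iff_of_two hB hdvd)
  obtain ⟨t, ht⟩ := hd2
  have ht2 : t ^ 2 * C c0 = 1 := by
    have h5 : ((X - C x : K[X]) ^ N) ^ 2 * (t ^ 2 * C c0) = ((X - C x : K[X]) ^ N) ^ 2 * 1 := by
      rw [mul_one, ← mul_assoc, ← mul_pow, ← ht, hN]
    exact mul_left_cancel₀ (pow_ne_zero 2 hB) h5
  have htu : IsUnit t := by
    rw [isUnit_iff_dvd_one]
    exact ⟨t * C c0, by rw [← mul_assoc, ← sq, ht2]⟩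
  obtain ⟨c, hc, hct⟩ := Polynomial.isUnit_iff.1 htu
  have hc00' : c ≠ 0 := hc.ne_zero
  have hnorm : Algebra.norm K[X] f = C c * (X - C x) ^ N := by rw [ht, ← hct, mul_comm]
  have hlc : (Algebra.norm K[X] f).leadingCoeff = c := by
    rw [hnorm, leadingCoeff_mul, leadingCoeff_C, leadingCoeff_pow, leadingCoeff_X_sub_C, one_pow,
      mul_one]
  -- the leading coefficient
  obtain ⟨p, q, hpq⟩ := exists_smul_basis_eq f
  have hform : Algebra.norm K[X] f = p ^ 2 -
      q ^ 2 * (X ^ 3 + C W.a₂ * X ^ 2 + C W.a₄ * X + C W.a₆) := by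
    rw [← hpq, norm_smul_basis, h1, h3]
    simp
  set M : K[X] := X ^ 3 + C W.a₂ * X ^ 2 + C W.a₄ * X + C W.a₆ with hM
  have hMdeg : M.natDegree = 3 := by
    rw [hM, ← one_mul (X ^ 3 : K[X]), ← C_1]; exact natDegree_cubic one_ne_zero
  have hMlc : M.leadingCoeff = 1 := by
    rw [hM, ← one_mul (X ^ 3 : K[X]), ← C_1]; exact leadingCoeff_cubic one_ne_zero
  have hM0 : M ≠ 0 := by
    intro h; rw [h] at hMdeg; simp at hMdeg
  rcases eq_or_ne q 0 with hq | hq
  · refine ⟨c, p.leadingCoeff, ?_, Or.inl ?_, hnorm⟩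
    · intro h
      rw [leadingCoeff_eq_zero] at h
      rw [h, hq] at hform
      rw [hform] at hlc
      simp at hlc
      exact hc00' hlc.symm
    · rw [← hlc, hform, hq]
      simp
  rcases eq_or_ne p 0 with hp | hp
  · refine ⟨c, q.leadingCoeff, ?_, Or.inr ?_, hnorm⟩
    · rwa [Ne, leadingCoeff_eq_zero]
    · rw [← hlc, hform, hp]
      simp [hMlc]
  have hdegp : (p ^ 2).natDegree = 2 * p.natDegree := natDegree_pow p 2
  have hdegq : (q ^ 2 * M).natDegree = 2 * q.natDegree + 3 := by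
    rw [natDegree_mul (pow_ne_zero 2 hq) hM0, natDegree_pow, hMdeg]
  have hqM : q ^ 2 * M ≠ 0 := mul_ne_zero (pow_ne_zero 2 hq) hM0
  rcases lt_or_gt_of_ne (show (p ^ 2).natDegree ≠ (q ^ 2 * M).natDegree by omega) with hlt | hgt
  · refine ⟨c, q.leadingCoeff, by rwa [Ne, leadingCoeff_eq_zero], Or.inr ?_, hnorm⟩
    rw [← hlc, hform, leadingCoeff_sub_of_degree_lt' (natDegree_lt_natDegree_iff
      (pow_ne_zero 2 hp) |>.1 hlt)]
    simp [hMlc]
  · refine ⟨c, p.leadingCoeff, by rwa [Ne, leadingCoeff_eq_zero], Or.inl ?_, hnorm⟩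
    rw [← hlc, hform, leadingCoeff_sub_of_degree_lt (natDegree_lt_natDegree_iff
      hqM |>.1 hgt)]
    simp

end Pool.Agent.W235.SecC
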